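import Pool.Agent.H45.Dep

open MeasureTheory ProbabilityTheory Finset Pool.Agent.H45.Dep
open scoped ENNReal

namespace Pool.Agent.Results.MP_7677b2_pr.KFour

section
variable {n : ℕ} (G : SimpleGraph (Fin n)) (p : ℝ)

open Classical in
/-- `Ψ(y) = ∑_{w ∼ v} |y - f(w)|^p`. -/
noncomputable def Ψ (f : Fin n → ℝ) (v : Fin n) (y : ℝ) : ℝ :=
  ∑ w ∈ univ.filter (G.Adj v), |y - f w| ^ p

/-- Update at `v`: the new value is the minimizer of `Ψ`. -/
noncomputable def upd (f : Fin n → ℝ) (v : Fin n) : Fin n → ℝ :=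
  Function.update f v (Classical.epsilon fun y => ∀ z, Ψ G p f v y ≤ Ψ G p f v z)

/-- The profile `f_t`, the updated vertices being `ω 0, ω 1, …`. -/
noncomputable def traj (f₀ : Fin n → ℝ) (ω : ℕ → Fin n) : ℕ → Fin n → ℝ
  | 0 => f₀
  | t + 1 => upd G p (traj f₀ ω t) (ω t)

/-- `osc f = max f - min f`. -/
noncomputable def osc (f : Fin n → ℝ) : ℝ := (⨆ v, f v) - ⨅ v, f v

/-- `E[τ_p(ε)]` for i.i.d. uniform updates. -/
noncomputable def Eτ (f₀ : Fin n → ℝ) (ε : ℝ) : ℝ≥0∞ :=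
  ∫⁻ ω, ⨅ (t : ℕ) (_ : osc (traj G p f₀ ω t) ≤ ε), (t : ℝ≥0∞)
    ∂Measure.infinitePi fun _ : ℕ => uniformOn (Set.univ : Set (Fin n))
end

abbrev K : SimpleGraph (Fin 4) := ⊤

lemma Ψ_eq (p f v y) : Ψ K p f v y = ∑ w ∈ univ.erase v, |y - f w| ^ p := by
  unfold Ψ; congr 1; ext w; simp [ne_comm]

lemma three : ∀ v u w : Fin 4, u ≠ v → w ≠ v → u ≠ w →
    ∃ x, x ≠ u ∧ x ≠ w ∧ univ.erase v = {u, w, x} := by decide

lemma Ψ_three (p f) {v u w : Fin 4} (h1 : u ≠ v) (h2 : w ≠ v) (h3 : u ≠ w) :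
    ∃ x, ∀ z, Ψ K p f v z = |z - f u| ^ p + |z - f w| ^ p + |z - f x| ^ p := by
  obtain ⟨x, h4, h5, h6⟩ := three v u w h1 h2 h3
  refine ⟨x, fun z => ?_⟩
  rw [Ψ_eq, h6, sum_insert (by simp [h3, h4.symm]), sum_insert (by simp [h5.symm]), sum_singleton,
    add_assoc]

def In (f : Fin 4 → ℝ) : Prop := ∀ v, 0 ≤ f v ∧ f v ≤ 1

lemma clamp {p : ℝ} (hp : 0 < p) {f} (hf : In f) (v) {y : ℝ} (hy : y ∉ Set.Icc (0 : ℝ) 1) :
    ∃ z ∈ Set.Icc (0 : ℝ) 1, Ψ K p f v z < Ψ K p f v y := by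
  have hne : (univ.erase v).Nonempty := by revert v; decide
  rcases lt_or_ge y 0 with h | h
  · refine ⟨0, by simp, ?_⟩
    simp only [Ψ_eq]
    refine sum_lt_sum_of_nonempty hne fun w _ => Real.rpow_lt_rpow (abs_nonneg _) ?_ hp
    have := hf w
    rw [abs_of_nonpos (by linarith), abs_of_nonpos (by linarith)]; linarith
  · have h' : 1 < y := not_le.1 fun h' => hy ⟨h, h'⟩
    refine ⟨1, by simp, ?_⟩
    simp only [Ψ_eq]
    refine sum_lt_sum_of_nonempty hne fun w _ => Real.rpow_lt_rpow (abs_nonneg _) ?_ hp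
    have := hf w
    rw [abs_of_nonneg (by linarith), abs_of_nonneg (by linarith)]; linarith

lemma spec {p : ℝ} (hp : 0 < p) {f} (hf : In f) (v) :
    (∀ z, Ψ K p f v (upd K p f v v) ≤ Ψ K p f v z) ∧ upd K p f v v ∈ Set.Icc (0 : ℝ) 1 := by
  have hc : Continuous (Ψ K p f v) := by
    unfold Ψ
    exact continuous_finsetSum _ fun w _ =>
      (continuous_id.sub continuous_const).abs.rpow_const fun _ => Or.inr hp.le
  obtain ⟨y, hy, hm⟩ := isCompact_Icc.exists_isMinOn (Set.nonempty_Icc.2 zero_le_one) hc.continuousOn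
  have h : ∀ z, Ψ K p f v (upd K p f v v) ≤ Ψ K p f v z := by
    rw [upd, Function.update_self]
    refine Classical.epsilon_spec (p := fun y => ∀ z, Ψ K p f v y ≤ Ψ K p f v z) ⟨y, fun z => ?_⟩
    by_cases hz : z ∈ Set.Icc (0 : ℝ) 1
    · exact hm hz
    · obtain ⟨z', h1, h2⟩ := clamp hp hf v hz
      exact (hm h1).trans h2.le
  refine ⟨h, by_contra fun hn => ?_⟩
  obtain ⟨z', -, h2⟩ := clamp hp hf v hn
  exact absurd (h z') (not_le.2 h2)

lemma upd_ne (p f) {v w : Fin 4} (h : w ≠ v) : upd K p f v w = f w := Function.update_of_ne h _ _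

lemma In.upd {p : ℝ} (hp : 0 < p) {f} (hf : In f) (v) : In (upd K p f v) := fun w => by
  by_cases h : w = v
  · rw [h]; exact (spec hp hf v).2
  · rw [upd_ne _ _ h]; exact hf w

lemma In.traj {p : ℝ} (hp : 0 < p) {f} (hf : In f) (ω) : ∀ t, In (traj K p f ω t)
  | 0 => hf
  | t + 1 => (In.traj hp hf ω t).upd hp _

lemma rpow_bd {p t : ℝ} (hp : 1 ≤ p) (h : |t| ≤ 1) : |t| - (p - 1) ≤ |t| ^ p ∧ |t| ^ p ≤ |t| := by
  refine ⟨?_, by simpa using Real.rpow_le_rpow_of_exponent_ge' (abs_nonneg t) h zero_le_one hp⟩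
  rcases (abs_nonneg t).eq_or_lt with h0 | h0
  · rw [← h0, Real.zero_rpow (by linarith)]; linarith
  · set s := |t|
    have h1 : s ^ p = s * Real.exp (Real.log s * (p - 1)) := by
      rw [← Real.rpow_def_of_pos h0, ← Real.rpow_one_add' h0.le (by linarith)]; ring_nf
    have h2 := Real.add_one_le_exp (Real.log s * (p - 1))
    have h3 : s - 1 ≤ s * Real.log s := Real.self_sub_one_le_mul_log h0.le
    rw [h1]; nlinarith [mul_le_mul_of_nonneg_left h2 h0.le]

lemma pair {p : ℝ} (hp : 1 ≤ p) {f} (hf : In f) {v u w : Fin 4} (h1 : u ≠ v) (h2 : w ≠ v)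
    (h3 : u ≠ w) : min (f u) (f w) - 3 * (p - 1) ≤ upd K p f v v ∧
      upd K p f v v ≤ max (f u) (f w) + 3 * (p - 1) := by
  obtain ⟨x, hx⟩ := Ψ_three p f h1 h2 h3
  obtain ⟨hm, hy⟩ := spec (by linarith : 0 < p) hf v
  set y := upd K p f v v
  have key : ∀ z ∈ Set.Icc (0 : ℝ) 1, |y - f u| + |y - f w| + |y - f x| - 3 * (p - 1) ≤
      |z - f u| + |z - f w| + |z - f x| := fun z hz => by
    have b : ∀ z ∈ Set.Icc (0 : ℝ) 1, ∀ a, |z - f a| ≤ 1 := fun z hz a => by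
      have := hf a; rw [abs_le]; constructor <;> linarith [hz.1, hz.2]
    have := hm z
    rw [hx, hx] at this
    linarith [(rpow_bd hp (b y hy u)).1, (rpow_bd hp (b y hy w)).1, (rpow_bd hp (b y hy x)).1,
      (rpow_bd hp (b z hz u)).2, (rpow_bd hp (b z hz w)).2, (rpow_bd hp (b z hz x)).2]
  have k1 := key _ (hf u)
  have k2 := key _ (hf w)
  simp only [sub_self, abs_zero] at k1 k2
  have t1 := abs_sub_le (f u) y (f x)
  have t2 := abs_sub_le (f w) y (f x)
  rw [abs_sub_comm (f u) y] at t1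
  rw [abs_sub_comm (f w) y] at t2
  have hp' : 0 ≤ p - 1 := by linarith
  rcases abs_cases (y - f u) with a | a <;> rcases abs_cases (y - f w) with b | b <;>
    rcases abs_cases (f u - f w) with c | c <;> rcases abs_cases (f w - f u) with d | d <;>
    simp only [min_def, max_def] <;> split_ifs <;> constructor <;> linarith

lemma osc_le {f : Fin 4 → ℝ} {c : ℝ} (h : ∀ u w, f u - f w ≤ c) : osc f ≤ c := by
  rw [osc, sub_le_iff_le_add]
  refine ciSup_le fun u => ?_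
  rw [← sub_le_iff_le_add']
  exact le_ciInf fun w => by linarith [h u w]

lemma le_osc (f : Fin 4 → ℝ) (u w) : f u - f w ≤ osc f :=
  sub_le_sub (le_ciSup (Set.finite_range _).bddAbove u) (ciInf_le (Set.finite_range _).bddBelow w)

lemma block {p : ℝ} (hp : 1 ≤ p) {f} (hf : In f) :
    osc (upd K p (upd K p (upd K p (upd K p f 0) 1) 2) 3) ≤ 12 * (p - 1) := by
  have hp0 : 0 < p := by linarith
  have h0 := pair hp hf (v := 0) (u := 2) (w := 3) (by decide) (by decide) (by decide)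
  have i1 := hf.upd hp0 0
  have h1 := pair hp i1 (v := 1) (u := 0) (w := 2) (by decide) (by decide) (by decide)
  have h1' := pair hp i1 (v := 1) (u := 0) (w := 3) (by decide) (by decide) (by decide)
  have i2 := i1.upd hp0 1
  have h2 := pair hp i2 (v := 2) (u := 0) (w := 1) (by decide) (by decide) (by decide)
  have h3 := pair hp (i2.upd hp0 2) (v := 3) (u := 0) (w := 1) (by decide) (by decide) (by decide)
  have hp' : 0 ≤ p - 1 := by linarith
  refine osc_le fun u w => ?_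
  simp (disch := decide) only [upd_ne] at h1 h1' h2 h3
  simp only [min_def, max_def] at h0 h1 h1' h2 h3
  fin_cases u <;> fin_cases w <;> simp (disch := decide) only [upd_ne, Fin.zero_eta, Fin.mk_one,
    Fin.reduceFinMk] <;> split_ifs at h0 h1 h1' h2 h3 <;> linarith

noncomputable abbrev P := Measure.infinitePi fun _ : ℕ => uniformOn (Set.univ : Set (Fin 4))

instance : IsProbabilityMeasure (uniformOn (Set.univ : Set (Fin 4))) :=
  isProbabilityMeasure_uniformOn Set.finite_univ Set.univ_nonempty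

def Gd (k : ℕ) : Set (ℕ → Fin 4) := Set.pi (Ico (4 * k) (4 * k + 4)) fun i => {Fin.ofNat 4 i}
def Bd (k : ℕ) : Set (ℕ → Fin 4) := {ω | ∀ j < k, ω ∉ Gd j}

lemma Gd_dep (k) : Dep (Ico (4 * k) (4 * k + 4)) (Gd k) := fun ω ω' h h' i hi => by
  rw [← h i hi]; exact h' i hi

lemma Bd_dep (k) : Dep (range (4 * k)) (Bd k) := fun ω ω' h h' j hj hc =>
  h' j hj (Gd_dep j ω' ω (fun i hi => (h i (by simp at hi ⊢; omega)).symm) hc)

lemma P_Bd (k) : P (Bd k) = (1 - 4⁻¹ ^ 4) ^ k := by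
  induction k with
  | zero => simp [Bd]
  | succ k ih =>
    have h1 : Bd (k + 1) = Bd k ∩ (Gd k)ᶜ := by
      ext ω; simp only [Bd, Set.mem_ofPred_eq, Nat.forall_lt_succ_right]; rfl
    have h2 : P (Gd k) = 4⁻¹ ^ 4 := by
      rw [Gd, Measure.infinitePi_pi _ fun _ _ => measurableSet_singleton _]
      simp [uniformOn_univ]
    rw [h1, Dep.inter _ (Bd_dep k) (T := Ico (4 * k) (4 * k + 4)) (B := (Gd k)ᶜ)
      (fun ω ω' h h' hc => h' (Gd_dep k ω' ω (fun i hi => (h i hi).symm) hc))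
      (disjoint_left.2 fun i h h' => by simp at h h'; omega), ih,
      prob_compl_eq_one_sub (Gd_dep k).meas, h2, pow_succ _ k]

lemma upper {p ε : ℝ} (hp : 1 ≤ p) (h : 12 * (p - 1) ≤ ε) {f} (hf : In f) : Eτ K p f ε ≤ 1024 := by
  calc Eτ K p f ε ≤ ∫⁻ ω, ∑' k, (Bd k).indicator (fun _ => (4 : ℝ≥0∞)) ω ∂P := by
        refine lintegral_mono fun ω => ?_
        by_cases hex : ∃ k, ω ∈ Gd k
        · classical
          have hk := Nat.find_spec hex
          set k := Nat.find hex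
          refine iInf₂_le_of_le (4 * k + 4) ?_ (le_trans ?_ (ENNReal.sum_le_tsum (range (k + 1))))
          · have e : ∀ i, i < 4 → ω (4 * k + i) = Fin.ofNat 4 i := fun i hi => by
              rw [hk (4 * k + i) (by simp; omega)]; ext; simp
            simp only [traj, e 1 (by norm_num), e 2 (by norm_num), e 3 (by norm_num),
              show ω (4 * k) = _ from e 0 (by norm_num)]
            exact (block hp (hf.traj (by linarith) ω _)).trans h
          · rw [sum_congr rfl (g := fun _ => 4) fun j hj => Set.indicator_of_mem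
              (show ω ∈ Bd j from fun i hi => Nat.find_min hex (by simp at hj; omega)) _]
            simp [mul_comm, mul_add]
        · push Not at hex
          rw [tsum_congr fun k => Set.indicator_of_mem (show ω ∈ Bd k from fun j _ => hex j) _]
          simp
    _ = _ := by
        rw [lintegral_tsum fun k => (measurable_const.indicator (Bd_dep k).meas).aemeasurable]
        simp only [lintegral_indicator_const (Bd_dep _).meas, P_Bd, ENNReal.tsum_mul_left,
          ENNReal.tsum_geometric]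
        rw [ENNReal.sub_sub_cancel ENNReal.one_ne_top (pow_le_one₀ zero_le (by simp)),
          ← ENNReal.inv_pow, inv_inv]
        norm_num

lemma mean {f} (hf : In f) {v u w : Fin 4} (h1 : u ≠ v) (h2 : w ≠ v) (h3 : u ≠ w) :
    ∃ x, x ≠ u ∧ x ≠ w ∧ x ≠ v ∧ 3 * upd K 2 f v v = f u + f w + f x := by
  obtain ⟨x, h4, h5, h6⟩ := three v u w h1 h2 h3
  refine ⟨x, h4, h5, (mem_erase.1 (h6 ▸ by simp : x ∈ univ.erase v)).1, ?_⟩
  have := (spec two_pos hf v).1 ((f u + f w + f x) / 3)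
  simp only [Ψ_eq, h6, sum_insert (show u ∉ ({w, x} : Finset _) by simp [h3, h4.symm]),
    sum_insert (show w ∉ ({x} : Finset _) by simp [h5.symm]), sum_singleton, Real.rpow_two,
    sq_abs] at this
  nlinarith [sq_nonneg (3 * upd K 2 f v v - (f u + f w + f x))]

def N3 (f : Fin 4 → ℝ) : Prop := ∀ a b c, a ≠ b → a ≠ c → b ≠ c → ¬ (f a = f b ∧ f a = f c)

lemma N3.upd {f} (hf : In f) (h : N3 f) (v) : N3 (upd K 2 f v) := by
  have key : ∀ b c, b ≠ v → c ≠ v → b ≠ c →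
      ¬ (KFour.upd K 2 f v v = f b ∧ KFour.upd K 2 f v v = f c) := fun b c hb hc hbc he => by
    obtain ⟨x, h4, h5, -, h7⟩ := mean hf hb hc hbc
    exact h b c x hbc h4.symm h5.symm ⟨by linarith, by linarith⟩
  intro a b c hab hac hbc he
  by_cases ha : a = v
  · subst ha
    rw [upd_ne _ _ hab.symm, upd_ne _ _ hac.symm] at he
    exact key b c hab.symm hac.symm hbc he
  by_cases hb : b = v
  · subst hb
    rw [upd_ne _ _ hab, upd_ne _ _ hbc.symm] at he
    exact key a c hab hbc.symm hac ⟨he.1.symm, he.1.symm.trans he.2⟩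
  by_cases hc : c = v
  · subst hc
    rw [upd_ne _ _ hac, upd_ne _ _ hbc] at he
    exact key a b hac hbc hab ⟨he.2.symm, he.2.symm.trans he.1⟩
  rw [upd_ne _ _ ha, upd_ne _ _ hb, upd_ne _ _ hc] at he
  exact h a b c hab hac hbc he

def f₀ : Fin 4 → ℝ := ![1, 0, 0, 0]

lemma in0 : In f₀ := fun v => by fin_cases v <;> simp [f₀]

lemma two : ∀ v : Fin 4, ∃ u w, u ≠ v ∧ w ≠ v ∧ u ≠ w := by decide

lemma int_traj (ω) : ∀ t v, ∃ z : ℤ, 3 ^ t * traj K 2 f₀ ω t v = z
  | 0, v => by fin_cases v; exacts [⟨1, by simp [traj, f₀]⟩, ⟨0, by simp [traj, f₀]⟩,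
      ⟨0, by simp [traj, f₀]⟩, ⟨0, by simp [traj, f₀]⟩]
  | t + 1, v => by
    by_cases h : v = ω t
    · obtain ⟨u, w, h1, h2, h3⟩ := two (ω t)
      obtain ⟨x, -, -, -, h7⟩ := mean (in0.traj two_pos ω t) h1 h2 h3
      obtain ⟨a, ha⟩ := int_traj ω t u
      obtain ⟨b, hb⟩ := int_traj ω t w
      obtain ⟨c, hc⟩ := int_traj ω t x
      refine ⟨a + b + c, ?_⟩
      rw [traj, h, pow_succ, mul_assoc, h7]; push_cast; linarith
    · obtain ⟨a, ha⟩ := int_traj ω t v
      refine ⟨3 * a, ?_⟩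
      rw [traj, upd_ne _ _ h, pow_succ]; push_cast; linarith

lemma n3 (ω : ℕ → Fin 4) (h : ω 0 ≠ 0) : ∀ t, N3 (traj K 2 f₀ ω (t + 1))
  | 0 => by
    have : ∀ v : Fin 4, v ≠ 0 → ∃ w, w ≠ v ∧ w ≠ 0 := by decide
    obtain ⟨w, h1, h2⟩ := this _ h
    obtain ⟨x, h4, -, -, h7⟩ := mean in0 h.symm h1 h2.symm
    have z : ∀ w : Fin 4, w ≠ 0 → f₀ w = 0 := fun w hw => by fin_cases w <;> simp_all [f₀]
    rw [z w h2, z x h4, show f₀ 0 = 1 from rfl] at h7
    have e : ∀ a, traj K 2 f₀ ω 1 a = if a = ω 0 then 1 / 3 else if a = 0 then 1 else 0 := by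
      intro a
      split_ifs with h1 h2
      · rw [h1, traj, traj]; linarith
      · rw [traj, upd_ne _ _ h1, h2]; rfl
      · rw [traj, upd_ne _ _ h1]; exact z a h2
    intro a b c hab hac hbc
    simp only [zero_add, e]
    generalize ω 0 = v at h
    fin_cases v <;> fin_cases a <;> fin_cases b <;> fin_cases c <;> simp_all
  | t + 1 => (n3 ω h t).upd (in0.traj two_pos ω _) _

lemma osc_ge (ω : ℕ → Fin 4) (h : ω 0 ≠ 0) (t : ℕ) : 1 ≤ 3 ^ t * osc (traj K 2 f₀ ω t) := by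
  obtain ⟨u, w, huw⟩ : ∃ u w, traj K 2 f₀ ω t w < traj K 2 f₀ ω t u := by
    by_contra hc
    push Not at hc
    rcases t with _ | t
    · have := hc 0 1
      norm_num [traj, f₀] at this
    · exact n3 ω h t 0 1 2 (by decide) (by decide) (by decide)
        ⟨le_antisymm (hc _ _) (hc _ _), le_antisymm (hc _ _) (hc _ _)⟩
  obtain ⟨a, ha⟩ := int_traj ω t u
  obtain ⟨b, hb⟩ := int_traj ω t w
  have h3 : (0 : ℝ) < 3 ^ t := by positivity
  have : (b : ℝ) < a := by rw [← ha, ← hb]; gcongr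
  have : (b : ℝ) + 1 ≤ a := by exact_mod_cast (by exact_mod_cast this : b < a)
  nlinarith [mul_le_mul_of_nonneg_left (le_osc (traj K 2 f₀ ω t) u w) h3.le]

lemma lower (T : ℕ) : (T : ℝ≥0∞) * 4⁻¹ ≤ Eτ K 2 f₀ (1 / 3 ^ T) := by
  have hm : MeasurableSet (Set.pi (({0} : Finset ℕ) : Set ℕ) fun _ => ({1} : Set (Fin 4))) :=
    MeasurableSet.pi (Set.to_countable _) fun _ _ => measurableSet_singleton _
  have : P (Set.pi ({0} : Finset ℕ) fun _ => ({1} : Set (Fin 4))) = 4⁻¹ := by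
    rw [Measure.infinitePi_pi _ fun _ _ => measurableSet_singleton _]; simp [uniformOn_univ]
  rw [← this, ← lintegral_indicator_const hm]
  refine lintegral_mono fun ω => ?_
  by_cases hω : ω ∈ Set.pi (({0} : Finset ℕ) : Set ℕ) fun _ => ({1} : Set (Fin 4))
  swap
  · rw [Set.indicator_of_notMem hω]; exact zero_le
  rw [Set.indicator_of_mem hω]
  refine le_iInf₂ fun t ht => ?_
  have h0 : ω 0 ≠ 0 := by rw [hω 0 (by simp)]; decide
  have h1 := (osc_ge ω h0 t).trans (mul_le_mul_of_nonneg_left ht (by positivity))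
  rw [mul_one_div, one_le_div (by positivity), pow_le_pow_iff_right₀ (by norm_num)] at h1
  exact_mod_cast h1

theorem result (C : ℝ) : ∃ n > 1, ∃ (G : SimpleGraph (Fin n)) (f₀ : Fin n → ℝ) (ε p₁ p₂ : ℝ),
    G.Connected ∧ (∀ v, 0 ≤ f₀ v ∧ f₀ v ≤ 1) ∧ 0 < ε ∧ 1 < p₁ ∧ p₁ < p₂ ∧
    ENNReal.ofReal C * Eτ G p₁ f₀ ε < Eτ G p₂ f₀ ε := by
  obtain ⟨T, hT⟩ : ∃ T, T = 4096 * (⌈C⌉₊ + 1) := ⟨_, rfl⟩
  have h3 : (1 : ℝ) / 3 ^ T ≤ 1 := by
    rw [div_le_one (by positivity)]; exact one_le_pow₀ (by norm_num)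
  have h0 : (0 : ℝ) < 1 / 3 ^ T := by positivity
  refine ⟨4, by norm_num, K, f₀, 1 / 3 ^ T, 1 + 1 / 3 ^ T / 12, 2, SimpleGraph.connected_top,
    in0, h0, by linarith, by linarith, lt_of_le_of_lt (mul_le_mul' (ENNReal.ofReal_le_ofReal
      (Nat.le_ceil C)) (upper (by linarith) (by linarith) in0)) (lt_of_lt_of_le ?_ (lower T))⟩
  rw [ENNReal.ofReal_natCast, ← div_eq_mul_inv,
    ENNReal.lt_div_iff_mul_lt (by simp) (by simp), hT]
  norm_cast
  omega

end Pool.Agent.Results.MP_7677b2_pr.KFour
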